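import Pool.Agent.Helper72.BH.FillDefs
import Pool.Agent.Helper22.OR.Finite

/-!
# Deleting an edge of a minimal graph: the rest lies in a factor generated by `k - 1` elements

`im_eq_sup`: the subgroup of a connected graph is generated by the subgroup of the component of the base without the
edge `e` and the subgroup of the graph in which this component is one vertex. With the ranks of these two graphs
this gives `del_split`.
-/

set_option autoImplicit false

namespace Pool.Agent.Helper84.HL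

open Pool.Agent.Helper22.OR Pool.Agent.Helper22.OR.Gr Pool.Agent.Helper72.BH

variable {n : ℕ} {G : Type} [Group G]

/-- `v` is in the component of the base without `e` -/
def R (f : Fin n → G) (Γ : Gr (Fin n)) (e : Γ.E) (v : Γ.V) : Prop := ∃ g, (delE Γ e).P f Γ.base v g

theorem R_base (f : Fin n → G) (Γ : Gr (Fin n)) (e : Γ.E) : R f Γ e Γ.base := ⟨1, P.refl _⟩

theorem R_step (f : Fin n → G) (Γ : Gr (Fin n)) (e x : Γ.E) (hx : x ≠ e) (h : R f Γ e (Γ.src x)) :
    R f Γ e (Γ.tgt x) := by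
  obtain ⟨g, hg⟩ := h
  exact ⟨_, hg.trans (P.edge (Γ := delE Γ e) ⟨x, hx⟩)⟩

theorem R_step' (f : Fin n → G) (Γ : Gr (Fin n)) (e x : Γ.E) (hx : x ≠ e) (h : R f Γ e (Γ.tgt x)) :
    R f Γ e (Γ.src x) := by
  obtain ⟨g, hg⟩ := h
  exact ⟨_, hg.trans (P.edge' (Γ := delE Γ e) ⟨x, hx⟩)⟩

open Classical in
/-- the value of a path from the base to `v` -/
noncomputable def cg (f : Fin n → G) (Γ : Gr (Fin n)) (e : Γ.E) (v : Γ.V) : G :=
  if v = Γ.base then 1 else if h : R f Γ e v then h.choose else 1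

theorem cg_base (f : Fin n → G) (Γ : Gr (Fin n)) (e : Γ.E) : cg f Γ e Γ.base = 1 := by
  unfold cg
  rw [if_pos rfl]

theorem cg_P (f : Fin n → G) (Γ : Gr (Fin n)) (e : Γ.E) {v : Γ.V} (h : R f Γ e v) :
    (delE Γ e).P f Γ.base v (cg f Γ e v) := by
  unfold cg
  by_cases hv : v = Γ.base
  · subst hv
    rw [if_pos rfl]
    exact P.refl _
  · rw [if_neg hv, dif_pos h]
    exact h.choose_spec

theorem cg_not (f : Fin n → G) (Γ : Gr (Fin n)) (e : Γ.E) {v : Γ.V} (h : ¬ R f Γ e v) : cg f Γ e v = 1 := by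
  unfold cg
  rw [dif_neg h, ite_self]

open Classical in
/-- the map to the graph in which the component is one vertex -/
noncomputable def ph (f : Fin n → G) (Γ : Gr (Fin n)) (e : Γ.E) (v : Γ.V) : {v : Γ.V // ¬ R f Γ e v} ⊕ Unit :=
  if h : R f Γ e v then Sum.inr () else Sum.inl ⟨v, h⟩

theorem ph_pos (f : Fin n → G) (Γ : Gr (Fin n)) (e : Γ.E) {v : Γ.V} (h : R f Γ e v) :
    ph f Γ e v = Sum.inr () := dif_pos h

theorem ph_neg (f : Fin n → G) (Γ : Gr (Fin n)) (e : Γ.E) {v : Γ.V} (h : ¬ R f Γ e v) :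
    ph f Γ e v = Sum.inl ⟨v, h⟩ := dif_neg h

open Classical in
/-- the graph in which the component of the base is one vertex -/
noncomputable def quo (f : Fin n → G) (Γ : Gr (Fin n)) (e : Γ.E) : Gr G where
  V := {v : Γ.V // ¬ R f Γ e v} ⊕ Unit
  E := {x : Γ.E // ¬ (x ≠ e ∧ R f Γ e (Γ.src x))}
  src := fun x => ph f Γ e (Γ.src x.1)
  tgt := fun x => ph f Γ e (Γ.tgt x.1)
  lab := fun x => cg f Γ e (Γ.src x.1) * f (Γ.lab x.1) * (cg f Γ e (Γ.tgt x.1))⁻¹
  base := Sum.inr ()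

theorem quo_path (f : Fin n → G) (Γ : Gr (Fin n)) (e : Γ.E) {u v : Γ.V} {g : G} (h : Γ.P f u v g) :
    ∃ g', (quo f Γ e).P id (ph f Γ e u) (ph f Γ e v) g' := by
  induction h with
  | refl v => exact ⟨1, P.refl _⟩
  | fwd x _ ih =>
    obtain ⟨g', hg'⟩ := ih
    by_cases hx : x ≠ e ∧ R f Γ e (Γ.src x)
    · rw [ph_pos f Γ e hx.2, ← ph_pos f Γ e (R_step f Γ e x hx.1 hx.2)]
      exact ⟨g', hg'⟩
    · exact ⟨_, (P.edge (Γ := quo f Γ e) (f := id) ⟨x, hx⟩).trans hg'⟩
  | bwd x _ ih =>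
    obtain ⟨g', hg'⟩ := ih
    by_cases hx : x ≠ e ∧ R f Γ e (Γ.src x)
    · rw [ph_pos f Γ e (R_step f Γ e x hx.1 hx.2), ← ph_pos f Γ e hx.2]
      exact ⟨g', hg'⟩
    · exact ⟨_, (P.edge' (Γ := quo f Γ e) (f := id) ⟨x, hx⟩).trans hg'⟩

theorem quo_conn {f : Fin n → G} {Γ : Gr (Fin n)} (hc : ∀ v, ∃ g, Γ.P f Γ.base v g) (e : Γ.E)
    (v : (quo f Γ e).V) : ∃ g, (quo f Γ e).P id (quo f Γ e).base v g := by
  have h1 : ∀ v : Γ.V, ∃ g, (quo f Γ e).P id (quo f Γ e).base (ph f Γ e v) g := by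
    intro v
    obtain ⟨g, hg⟩ := hc v
    obtain ⟨g', hg'⟩ := quo_path f Γ e hg
    rw [ph_pos f Γ e (R_base f Γ e)] at hg'
    exact ⟨g', hg'⟩
  rcases v with ⟨v, hv⟩ | v
  · have h2 := h1 v
    rw [ph_neg f Γ e hv] at h2
    exact h2
  · exact ⟨1, P.refl _⟩

/-- The whole group is generated by the component and the quotient graph. -/
theorem im_eq_sup {f : Fin n → G} {Γ : Gr (Fin n)} (hc : ∀ v, ∃ g, Γ.P f Γ.base v g) (e : Γ.E) :
    Γ.im f = (delE Γ e).im f ⊔ (quo f Γ e).im id := by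
  classical
  apply le_antisymm
  · -- the gauge
    have h1 : ∀ v' : (quo f Γ e).V, ∃ g, (quo f Γ e).P id (quo f Γ e).base v' g ∧
        (v' = (quo f Γ e).base → g = 1) := by
      intro v'
      by_cases hv : v' = (quo f Γ e).base
      · exact ⟨1, by rw [hv]; exact P.refl _, fun _ => rfl⟩
      · obtain ⟨g, hg⟩ := quo_conn hc e v'
        exact ⟨g, hg, fun h => absurd h hv⟩
    choose q hq hq1 using h1
    have hb : q (Sum.inr ()) = 1 := hq1 _ rfl
    set J := (delE Γ e).im f ⊔ (quo f Γ e).im id with hJ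
    have key : ∀ {u v : Γ.V} {g : G}, Γ.P f u v g →
        (q (ph f Γ e u) * cg f Γ e u) * g * (q (ph f Γ e v) * cg f Γ e v)⁻¹ ∈ J := by
      have edge : ∀ x : Γ.E, (q (ph f Γ e (Γ.src x)) * cg f Γ e (Γ.src x)) * f (Γ.lab x) *
          (q (ph f Γ e (Γ.tgt x)) * cg f Γ e (Γ.tgt x))⁻¹ ∈ J := by
        intro x
        by_cases hx : x ≠ e ∧ R f Γ e (Γ.src x)
        · have ht := R_step f Γ e x hx.1 hx.2
          rw [ph_pos f Γ e hx.2, ph_pos f Γ e ht, hb, one_mul, one_mul]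
          refine (le_sup_left : _ ≤ J) ?_
          have h2 := ((cg_P f Γ e hx.2).trans (P.edge (Γ := delE Γ e) ⟨x, hx.1⟩)).trans (cg_P f Γ e ht).symm
          exact h2
        · refine (le_sup_right : _ ≤ J) ?_
          have h2 := ((hq (ph f Γ e (Γ.src x))).trans (P.edge (Γ := quo f Γ e) (f := id) ⟨x, hx⟩)).trans
            (hq (ph f Γ e (Γ.tgt x))).symm
          rw [mem_im]
          refine h2.congr ?_
          simp only [quo, id]
          group
      intro u v g h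
      induction h with
      | refl v => simp only [mul_one, mul_inv_cancel]; exact one_mem _
      | @fwd v g x _ ih =>
        have h3 := mul_mem (edge x) ih
        have h4 : (q (ph f Γ e (Γ.src x)) * cg f Γ e (Γ.src x)) * (f (Γ.lab x) * g) *
            (q (ph f Γ e v) * cg f Γ e v)⁻¹ =
          ((q (ph f Γ e (Γ.src x)) * cg f Γ e (Γ.src x)) * f (Γ.lab x) *
            (q (ph f Γ e (Γ.tgt x)) * cg f Γ e (Γ.tgt x))⁻¹) *
          ((q (ph f Γ e (Γ.tgt x)) * cg f Γ e (Γ.tgt x)) * g * (q (ph f Γ e v) * cg f Γ e v)⁻¹) := by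
          group
        rw [h4]
        exact h3
      | @bwd v g x _ ih =>
        have h3 := mul_mem (inv_mem (edge x)) ih
        have h4 : (q (ph f Γ e (Γ.tgt x)) * cg f Γ e (Γ.tgt x)) * ((f (Γ.lab x))⁻¹ * g) *
            (q (ph f Γ e v) * cg f Γ e v)⁻¹ =
          ((q (ph f Γ e (Γ.src x)) * cg f Γ e (Γ.src x)) * f (Γ.lab x) *
            (q (ph f Γ e (Γ.tgt x)) * cg f Γ e (Γ.tgt x))⁻¹)⁻¹ *
          ((q (ph f Γ e (Γ.src x)) * cg f Γ e (Γ.src x)) * g * (q (ph f Γ e v) * cg f Γ e v)⁻¹) := by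
          group
        rw [h4]
        exact h3
    intro g hg
    have h5 := key (mem_im.mp hg)
    rw [ph_pos f Γ e (R_base f Γ e), hb, cg_base] at h5
    simpa using h5
  · refine sup_le ?_ ?_
    · intro g hg
      exact P.transfer' (Γ := delE Γ e) (Γ' := Γ) (f := f) (f' := f) (fun v => v)
        (fun x => P.edge (Γ := Γ) (f := f) x.1) hg
    · have h1 : ∀ v : Γ.V, Γ.P f (Sum.elim (fun y : {v : Γ.V // ¬ R f Γ e v} => y.1)
          (fun _ => Γ.base) (ph f Γ e v)) v (cg f Γ e v) := by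
        intro v
        by_cases hv : R f Γ e v
        · rw [ph_pos f Γ e hv]
          exact P.transfer' (Γ := delE Γ e) (Γ' := Γ) (f := f) (f' := f) (fun v => v)
            (fun x => P.edge (Γ := Γ) (f := f) x.1) (cg_P f Γ e hv)
        · rw [ph_neg f Γ e hv, cg_not f Γ e hv]
          exact P.refl _
      intro g hg
      have h2 := P.transfer' (Γ := quo f Γ e) (Γ' := Γ) (f := id) (f' := f)
        (fun v => Sum.elim (fun y : {v : Γ.V // ¬ R f Γ e v} => y.1) (fun _ => Γ.base) v)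
        (fun x => ((h1 (Γ.src x.1)).trans (P.edge (Γ := Γ) (f := f) x.1)).trans (h1 (Γ.tgt x.1)).symm) hg
      exact h2

theorem quo_card_E (f : Fin n → G) (Γ : Gr (Fin n)) (e : Γ.E) :
    Fintype.card (quo f Γ e).E + Fintype.card (comp f Γ e).E = Fintype.card Γ.E := by
  classical
  have h1 : Fintype.card (comp f Γ e).E = Fintype.card {x : Γ.E // x ≠ e ∧ R f Γ e (Γ.src x)} :=
    Fintype.card_congr (Equiv.refl _)
  have h2 : Fintype.card (quo f Γ e).E = Fintype.card {x : Γ.E // ¬ (x ≠ e ∧ R f Γ e (Γ.src x))} :=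
    Fintype.card_congr (Equiv.refl _)
  have h3 := Fintype.card_subtype_compl (fun x : Γ.E => x ≠ e ∧ R f Γ e (Γ.src x))
  have h4 := Fintype.card_subtype_le (fun x : Γ.E => x ≠ e ∧ R f Γ e (Γ.src x))
  omega

theorem quo_card_V (f : Fin n → G) (Γ : Gr (Fin n)) (e : Γ.E) :
    Fintype.card (quo f Γ e).V + Fintype.card (comp f Γ e).V = Fintype.card Γ.V + 1 := by
  classical
  have h1 : Fintype.card (comp f Γ e).V = Fintype.card {v : Γ.V // R f Γ e v} :=
    Fintype.card_congr (Equiv.refl _)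
  have h2 : Fintype.card (quo f Γ e).V = Fintype.card {v : Γ.V // ¬ R f Γ e v} + 1 := by
    have : Fintype.card (quo f Γ e).V = Fintype.card ({v : Γ.V // ¬ R f Γ e v} ⊕ Unit) :=
      Fintype.card_congr (Equiv.refl _)
    rw [this, Fintype.card_sum, Fintype.card_unit]
  have h3 := Fintype.card_subtype_compl (fun v : Γ.V => R f Γ e v)
  have h4 := Fintype.card_subtype_le (fun v : Γ.V => R f Γ e v)
  omega

/-- A connected graph has at most one vertex more than edges. -/
theorem card_V_le_E {α : Type} {f : α → G} {Γ : Gr α} (hc : ∀ v, ∃ g, Γ.P f Γ.base v g) :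
    Fintype.card Γ.V ≤ Fintype.card Γ.E + 1 := by
  classical
  by_contra hlt
  push Not at hlt
  let Γ' : Gr (Multiplicative ℤ) :=
    { V := Γ.V
      E := Option Γ.E
      src := fun x => x.elim Γ.base Γ.src
      tgt := fun x => x.elim Γ.base Γ.tgt
      lab := fun x => x.elim (Multiplicative.ofAdd 1) (fun _ => 1)
      base := Γ.base }
  have h1 : ∀ {u v : Γ.V} {g : G}, Γ.P f u v g → ∃ g', Γ'.P id u v g' := by
    intro u v g h
    induction h with
    | refl v => exact ⟨1, P.refl (Γ := Γ') v⟩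
    | fwd x _ ih =>
      obtain ⟨g', hg'⟩ := ih
      exact ⟨_, (P.edge (Γ := Γ') (f := id) (some x)).trans hg'⟩
    | bwd x _ ih =>
      obtain ⟨g', hg'⟩ := ih
      exact ⟨_, (P.edge' (Γ := Γ') (f := id) (some x)).trans hg'⟩
  have h2 : Γ'.Good id (Γ'.im id) 0 := by
    refine ⟨fun v => ?_, ?_, rfl⟩
    · obtain ⟨g, hg⟩ := hc v
      exact h1 hg
    · have h3 : Fintype.card Γ'.E = Fintype.card Γ.E + 1 := by
        have : Fintype.card Γ'.E = Fintype.card (Option Γ.E) := Fintype.card_congr (Equiv.refl _)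
        rw [this, Fintype.card_option]
      have h4 : Fintype.card Γ'.V = Fintype.card Γ.V := Fintype.card_congr (Equiv.refl _)
      omega
  obtain ⟨g, hg⟩ := gen_of_good id h2
  have h3 : Multiplicative.ofAdd (1 : ℤ) ∈ Γ'.im id := P.edge (Γ := Γ') (f := id) none
  rw [← hg, Set.range_eq_empty g, Subgroup.closure_empty, Subgroup.mem_bot] at h3
  exact absurd (congrArg Multiplicative.toAdd h3) (by simp)

theorem closure_append {a b : ℕ} (g1 : Fin a → G) (g2 : Fin b → G) :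
    Subgroup.closure (Set.range (Fin.append g1 g2)) =
      Subgroup.closure (Set.range g1) ⊔ Subgroup.closure (Set.range g2) := by
  rw [← Subgroup.closure_union]
  congr 1
  ext x
  constructor
  · rintro ⟨i, rfl⟩
    refine Fin.addCases (fun i => ?_) (fun i => ?_) i
    · rw [Fin.append_left]; exact Or.inl ⟨i, rfl⟩
    · rw [Fin.append_right]; exact Or.inr ⟨i, rfl⟩
  · rintro (⟨i, rfl⟩ | ⟨i, rfl⟩)
    · exact ⟨Fin.castAdd b i, Fin.append_left g1 g2 i⟩
    · exact ⟨Fin.natAdd a i, Fin.append_right g1 g2 i⟩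

theorem del_split {f : Fin n → G} {A : Subgroup G} {k : ℕ} {Γ : Gr (Fin n)} (h : Γ.Mini f A k)
    (e : Γ.E) : ∃ (K : Subgroup G) (u : G), Gen (k - 1) K ∧ (delE Γ e).im f ≤ K ∧
      K ⊔ Subgroup.closure {u} = A := by
  classical
  have hr := comp_rank h e
  have hE := quo_card_E f Γ e
  have hV := quo_card_V f Γ e
  have hG := h.good.rank
  have hcv := card_V_le_E (comp_conn f Γ e)
  obtain ⟨b, hb⟩ : ∃ b, Fintype.card (comp f Γ e).E + 1 = Fintype.card (comp f Γ e).V + b :=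
    ⟨Fintype.card (comp f Γ e).E + 1 - Fintype.card (comp f Γ e).V, by omega⟩
  obtain ⟨c, hc⟩ : ∃ c, k = b + (c + 1) := ⟨k - b - 1, by omega⟩
  obtain ⟨g1, hg1⟩ := gen_of_good f (⟨comp_conn f Γ e, hb.le, comp_im f Γ e⟩ :
    (comp f Γ e).Good f ((delE Γ e).im f) b)
  obtain ⟨g2, hg2⟩ := gen_of_good (k := c + 1) id (⟨quo_conn h.good.conn e, by omega, rfl⟩ :
    (quo f Γ e).Good id ((quo f Γ e).im id) (c + 1))
  have hsplit : Subgroup.closure (Set.range g2) =
      Subgroup.closure (Set.range (fun i : Fin c => g2 i.castSucc)) ⊔ Subgroup.closure {g2 (Fin.last c)} := by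
    rw [← Subgroup.closure_union]
    congr 1
    ext x
    constructor
    · rintro ⟨i, rfl⟩
      refine Fin.lastCases ?_ (fun i => ?_) i
      · exact Or.inr rfl
      · exact Or.inl ⟨i, rfl⟩
    · rintro (⟨i, rfl⟩ | rfl)
      · exact ⟨_, rfl⟩
      · exact ⟨_, rfl⟩
  refine ⟨(delE Γ e).im f ⊔ Subgroup.closure (Set.range (fun i : Fin c => g2 i.castSucc)), g2 (Fin.last c),
    ?_, le_sup_left, ?_⟩
  · have hk : k - 1 = b + c := by omega
    rw [hk, ← hg1, ← closure_append]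
    exact ⟨_, rfl⟩
  · rw [sup_assoc, ← hsplit, hg2, ← im_eq_sup h.good.conn e, h.good.im_eq]

theorem not_le_del {f : Fin n → G} {H A : Subgroup G} {k : ℕ} {Γ : Gr (Fin n)}
    (h : Γ.Mini f A k) (hA : Filled k H A) (e : Γ.E) : ¬ H ≤ (delE Γ e).im f := by
  obtain ⟨K, u, h1, h2, h3⟩ := del_split h e
  have hk := pos_of_edge h e
  exact fun hH => hA.2.2 (k - 1) K u (by omega) h1 h3 (hH.trans h2)

end Pool.Agent.Helper84.HL
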